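import Mathlib
import Pool.Agent.Y961.ZI.Fam

/-!
# The Zafran ideal and the radical of the Fourier algebra for groups containing direct sums of
free groups

For every discrete group `G` that contains the direct sum of countably many free groups of rank two
there are continuum many functions in `B(G)` that vanish at infinity and have natural spectrum,
such that the distances of these functions and of their differences to the linear span of `r(A(G))`
are at least `1 / 2`. So the Zafran ideal is not contained in the closed subspace generated by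
`r(A(G))` and any countable set. Such groups exist with three generators, every
group is a direct factor of such a group, and the group of all permutations of the natural numbers
is such a group.
-/

set_option autoImplicit false

namespace Pool.Agent.Results.MP_849d05_an.DirectSumsOfFreeGroups

open Pool.Agent.H71R3.FS Pool.Agent.H71R3.Zafran Pool.Agent.Y961.ZI Filter Topology UniformSpace

/-- The Fourier-Stieltjes algebra `B(G) = C*(G)^*` with its norm; the element `Φ` is the function
`g ↦ Φ (dir g)`. -/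
abbrev BG (G : Type) [Group G] : Type := CStar G →L[ℂ] ℂ

/-- `Φ` vanishes at infinity -/
def IsC0 {G : Type} [Group G] (Φ : BG G) : Prop := Tendsto (fun g => Φ (dir g)) cofinite (𝓝 0)

/-- the spectrum of `Φ` in `B(G)` -/
def spec {G : Type} [Group G] (Φ : BG G) : Set ℂ :=
  {lam | ¬ ∃ Ψ : BG G, ∀ g, Ψ (dir g) * (lam - Φ (dir g)) = 1}

/-- `Φ` has natural spectrum -/
def NaturalSpectrum {G : Type} [Group G] (Φ : BG G) : Prop :=
  spec Φ = closure (Set.range fun g => Φ (dir g))

/-- `Φ` belongs to the Fourier algebra: it is a coefficient of the left regular representation -/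
def IsA {G : Type} [Group G] (Φ : BG G) : Prop :=
  ∃ ξ η : G → ℂ, (Summable fun x => ‖ξ x‖ ^ 2) ∧ (Summable fun x => ‖η x‖ ^ 2) ∧
    ∀ g, Φ (dir g) = ∑' x, ξ (g⁻¹ * x) * starRingEnd ℂ (η x)

/-- `r(A(G))` -/
def rA (G : Type) [Group G] : Set (BG G) :=
  {Φ | ∃ n : ℕ, 0 < n ∧ ∃ Ψ : BG G, IsA Ψ ∧ ∀ g, Ψ (dir g) = Φ (dir g) ^ n}

/-- The equality of Q1 fails for `G`, in a strong form: some element of the Zafran ideal is not in
the closure of `r(A(G))`; there are elements `Φ t` of the Zafran ideal, `t` a sequence of bits, such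
that all `Φ t` and all differences of two of them have distance at least `1 / 2` to every element
of the linear span of `r(A(G))`; and for every countable subset `D` of `B(G)` some element of the
Zafran ideal has distance at least `1 / 4` to all `d + Ψ`, `d ∈ D`, `Ψ` in the linear span of
`r(A(G))`. -/
def Fails (G : Type) [Group G] : Prop :=
  (∃ Φ : BG G, IsC0 Φ ∧ NaturalSpectrum Φ ∧ Φ ∉ closure (rA G)) ∧
  (∃ Φ : (ℕ → Bool) → BG G, (∀ t, IsC0 (Φ t) ∧ NaturalSpectrum (Φ t)) ∧
    (∀ t, ∀ Ψ ∈ Submodule.span ℂ (rA G), 1 / 2 ≤ ‖Φ t - Ψ‖) ∧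
    ∀ t t', t ≠ t' → ∀ Ψ ∈ Submodule.span ℂ (rA G), 1 / 2 ≤ ‖Φ t - Φ t' - Ψ‖) ∧
  ∀ D : Set (BG G), D.Countable → ∃ Φ : BG G, IsC0 Φ ∧ NaturalSpectrum Φ ∧
    ∀ d ∈ D, ∀ Ψ ∈ Submodule.span ℂ (rA G), 1 / 4 ≤ ‖Φ - (d + Ψ)‖

/-- `G` contains the direct sum of countably many free groups of rank two. -/
def HasSum (G : Type) [Group G] : Prop :=
  ∃ j : DS (fun _ : ℕ => FreeGroup (Fin 2)) →* G, Function.Injective j

theorem closure_subset_spec {G : Type} [Group G] (Φ : BG G) :
    closure (Set.range fun g => Φ (dir g)) ⊆ spec Φ := by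
  intro lam hlam
  rintro ⟨Ψ, hΨ⟩
  rw [Metric.mem_closure_iff] at hlam
  obtain ⟨_, ⟨g, rfl⟩, hg⟩ := hlam (1 / (‖Ψ‖ + 1)) (by positivity)
  have h1 := congrArg norm (hΨ g)
  rw [norm_mul, norm_one] at h1
  rw [dist_eq_norm, lt_div_iff₀ (by positivity)] at hg
  have h2 : ‖Ψ (dir g)‖ ≤ ‖Ψ‖ := norm_val_le Ψ g
  have h3 := norm_nonneg (lam - Φ (dir g))
  nlinarith [norm_nonneg Ψ]

theorem zero_mem {S : Set ℂ} (h : ∀ x : GG, mu x ∈ S) : (0 : ℂ) ∈ closure S := by
  have h2 : Tendsto (fun m : ℕ => mu (em m (FreeGroup.of ⟨0, by positivity⟩))) atTop (𝓝 0) := by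
    refine squeeze_zero_norm (a := fun m : ℕ => 1 / ((m : ℝ) + 1)) (fun m => ?_)
      tendsto_one_div_add_atTop_nhds_zero_nat
    refine (mu_le _ m).trans ?_
    rw [em_same, ps_ne (FreeGroup.of_ne_one _)]
    have h3 : (1 / 2 : ℝ) ^ (FreeGroup.of (⟨0, by positivity⟩ : Fin (2 ^ ((m + 1) ^ 2)))).norm
        ≤ 1 := pow_le_one₀ (by norm_num) (by norm_num)
    have h4 := ep_pos m
    calc ep m * _ ≤ ep m * 1 := mul_le_mul_of_nonneg_left h3 h4.le
      _ = _ := by rw [mul_one]; rfl
  exact mem_closure_of_tendsto h2 (Eventually.of_forall fun m => h _)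

theorem mu_norm_le (x : GG) : ‖mu x‖ ≤ 1 := (mu_le x 0).trans (ps_le_one 0 _)

/-- the extension by zero of the function along an embedding belongs to the Zafran ideal -/
theorem zafran_of_emb {G : Type} [Group G] (J : GG →* G) (T : CStar G →L[ℂ] CStar GG)
    (hT1 : ∀ h, T (dir (J h)) = dir h) (hT0 : ∀ g ∉ J.range, T (dir g) = 0)
    (Φ : BG GG) (hΦ : ∀ x, Φ (dir x) = mu x) :
    IsC0 (Φ.comp T) ∧ NaturalSpectrum (Φ.comp T) := by
  obtain ⟨O, hO, -⟩ := hasF_one (G := GG)
  obtain ⟨O', hO', -⟩ := hasF_one (G := G)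
  have v1 : ∀ x, (Φ.comp T) (dir (J x)) = mu x := by
    intro x
    rw [ContinuousLinearMap.comp_apply, hT1, hΦ]
  have v0 : ∀ g ∉ J.range, (Φ.comp T) (dir g) = 0 := by
    intro g hg
    rw [ContinuousLinearMap.comp_apply, hT0 g hg, map_zero]
  refine ⟨?_, ?_⟩
  · unfold IsC0
    rw [Metric.tendsto_nhds]
    intro ε hε
    have h := (Metric.tendsto_nhds.1 mu_tendsto) ε hε
    rw [eventually_cofinite] at h ⊢
    refine (h.image J).subset fun g hg => ?_
    by_cases hm : g ∈ J.range
    · obtain ⟨x, rfl⟩ := hm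
      refine ⟨x, ?_, rfl⟩
      have hg' : ¬ dist ((Φ.comp T) (dir (J x))) 0 < ε := hg
      rw [v1] at hg'
      exact hg'
    · exfalso
      have hg' : ¬ dist ((Φ.comp T) (dir g)) 0 < ε := hg
      rw [v0 g hm, dist_self] at hg'
      exact hg' hε
  · unfold NaturalSpectrum
    refine Set.Subset.antisymm (fun lam hlam => ?_) (closure_subset_spec _)
    by_contra hc
    apply hlam
    have h1 : ∀ x, lam ≠ mu x := by
      intro x hx
      apply hc
      refine subset_closure ⟨J x, ?_⟩
      change (Φ.comp T) (dir (J x)) = lam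
      rw [v1, hx]
    have h0 : lam ≠ 0 := by
      rintro rfl
      exact hc (zero_mem fun x => ⟨J x, v1 x⟩)
    obtain ⟨Ψ, hΨ⟩ := exists_inverse lam h0 h1
    refine ⟨(Ψ - lam⁻¹ • O).comp T + lam⁻¹ • O', fun g => ?_⟩
    by_cases hg : g ∈ J.range
    · obtain ⟨x, rfl⟩ := hg
      rw [v1, add_apply, ContinuousLinearMap.comp_apply, hT1, sub_apply, smul_apply, smul_apply,
        hO, hO', sub_add_cancel]
      exact hΨ x
    · rw [v0 g hg, add_apply, ContinuousLinearMap.comp_apply, hT0 g hg,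
        map_zero, smul_apply, hO', sub_zero, zero_add, smul_eq_mul, mul_one,
        inv_mul_cancel₀ h0]

/-- the elements of the linear span of `r(A(G))` have small averages on the subgroup -/
theorem small_span {G : Type} [Group G] (J : GG →* G) (hJ : Function.Injective J)
    (P : CStar GG →L[ℂ] CStar G) (hP : ∀ h, P (dir h) = dir (J h)) (Ψ : BG G)
    (hΨ : Ψ ∈ Submodule.span ℂ (rA G)) : Small (Ψ.comp P) := by
  induction hΨ using Submodule.span_induction with
  | mem Ψ h =>
    obtain ⟨n, hn, Θ, ⟨ξ, η, hξ, hη, hΘ⟩, hpow⟩ := h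
    intro δ hδ
    exact avg_small_sub J hJ (Ψ.comp P) n hn ξ η hξ hη (fun y => by
      rw [ContinuousLinearMap.comp_apply, hP, ← hpow, hΘ]) δ hδ
  | zero =>
    rw [ContinuousLinearMap.zero_comp]
    exact Small.zero
  | add R S _ _ hR hS =>
    rw [ContinuousLinearMap.add_comp]
    exact hR.add hS
  | smul c R _ hR =>
    rw [ContinuousLinearMap.smul_comp]
    exact hR.smul c

theorem not_countable_bits : ¬ Countable (ℕ → Bool) := by
  intro h
  obtain ⟨f, hf⟩ := exists_injective_nat (ℕ → Bool)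
  classical
  have : Function.Injective fun S : Set ℕ => f fun n => decide (n ∈ S) := by
    intro S S' h
    have h1 := hf h
    ext n
    have h2 := congrFun h1 n
    simpa using h2
  exact Function.cantor_injective _ this

theorem fails_of_hasSum {G : Type} [Group G] (h : HasSum G) : Fails G := by
  obtain ⟨j, hj⟩ := h
  obtain ⟨Φ, hΦ, -⟩ := hasF_mu
  have hJ : ∀ t, Function.Injective (j.comp (Jt t)) := fun t => hj.comp (Jt_inj t)
  choose T hT1 hT0 using fun t => exists_cond (j.comp (Jt t)) (hJ t)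
  choose P hP hP1 using fun t => exists_push' (j.comp (Jt t))
  have v1 : ∀ t x, (Φ.comp (T t)) (dir ((j.comp (Jt t)) x)) = mu x := by
    intro t x
    rw [ContinuousLinearMap.comp_apply, hT1, hΦ]
  have v0 : ∀ t, ∀ g ∉ (j.comp (Jt t)).range, (Φ.comp (T t)) (dir g) = 0 := by
    intro t g hg
    rw [ContinuousLinearMap.comp_apply, hT0 t g hg, map_zero]
  have hz : ∀ t, IsC0 (Φ.comp (T t)) ∧ NaturalSpectrum (Φ.comp (T t)) := fun t =>
    zafran_of_emb (j.comp (Jt t)) (T t) (hT1 t) (hT0 t) Φ hΦ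
  have key : ∀ t (R : BG G), Small (R.comp (P t)) → 1 / 2 ≤ ‖Φ.comp (T t) - R‖ := by
    intro t R hR
    have h1 := dist_general ((Φ.comp (T t)).comp (P t)) (R.comp (P t)) (fun x => by
      rw [ContinuousLinearMap.comp_apply, hP, v1]) hR
    rw [← ContinuousLinearMap.sub_comp] at h1
    refine h1.trans ((ContinuousLinearMap.opNorm_comp_le _ _).trans ?_)
    exact mul_le_of_le_one_right (norm_nonneg _) (hP1 t)
  have hd1 : ∀ t, ∀ Ψ ∈ Submodule.span ℂ (rA G), 1 / 2 ≤ ‖Φ.comp (T t) - Ψ‖ := fun t Ψ hΨ =>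
    key t Ψ (small_span _ (hJ t) (P t) (hP t) Ψ hΨ)
  have hd2 : ∀ t t', t ≠ t' → ∀ Ψ ∈ Submodule.span ℂ (rA G),
      1 / 2 ≤ ‖Φ.comp (T t) - Φ.comp (T t') - Ψ‖ := by
    intro t t' htt Ψ hΨ
    rw [sub_sub]
    refine key t _ ?_
    rw [ContinuousLinearMap.add_comp]
    refine Small.add ?_ (small_span _ (hJ t) (P t) (hP t) Ψ hΨ)
    intro δ hδ
    refine small_other j hj htt _ (fun x y hxy => ?_) (fun y hy => ?_) δ hδ
    · rw [ContinuousLinearMap.comp_apply, hP]
      have e : (j.comp (Jt t)) y = (j.comp (Jt t')) x := hxy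
      rw [e, v1]
      exact mu_norm_le x
    · rw [ContinuousLinearMap.comp_apply, hP]
      exact v0 t' _ hy
  refine ⟨⟨Φ.comp (T fun _ => true), (hz _).1, (hz _).2, ?_⟩,
    ⟨fun t => Φ.comp (T t), hz, hd1, hd2⟩, fun D hD => ?_⟩
  · intro hcl
    rw [Metric.mem_closure_iff] at hcl
    obtain ⟨Ψ, hΨ, hd⟩ := hcl (1 / 2) (by norm_num)
    rw [dist_eq_norm] at hd
    exact absurd (hd1 _ Ψ (Submodule.subset_span hΨ)) (not_le.2 hd)
  · by_contra hcon
    push Not at hcon
    have h1 : ∀ t, ∃ d ∈ D, ∃ Ψ ∈ Submodule.span ℂ (rA G), ‖Φ.comp (T t) - (d + Ψ)‖ < 1 / 4 :=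
      fun t => hcon _ (hz t).1 (hz t).2
    choose d hdD Ψ hΨ hlt using h1
    have hcD : Countable D := hD.to_subtype
    apply not_countable_bits
    refine Function.Injective.countable (f := fun t => (⟨d t, hdD t⟩ : D)) ?_
    intro t t' htt
    by_contra hne
    have h2 : d t = d t' := congrArg Subtype.val htt
    have h3 := hd2 t t' hne (Ψ t - Ψ t') (Submodule.sub_mem _ (hΨ t) (hΨ t'))
    have e : Φ.comp (T t) - Φ.comp (T t') - (Ψ t - Ψ t') =
        (Φ.comp (T t) - (d t + Ψ t)) - (Φ.comp (T t') - (d t' + Ψ t')) := by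
      rw [h2]; abel
    rw [e] at h3
    have h4 := norm_sub_le (Φ.comp (T t) - (d t + Ψ t)) (Φ.comp (T t') - (d t' + Ψ t'))
    have h5 := hlt t
    have h6 := hlt t'
    linarith

theorem hasSum_perm : HasSum (Equiv.Perm ℕ) := by
  have hc : Countable F2 := FreeGroup.toWord_injective.countable
  obtain ⟨e⟩ : Nonempty ((ℤ × F2) ≃ ℕ) := nonempty_equiv_of_countable
  refine ⟨(e.permCongrHom.toMonoidHom).comp (act.comp e0), ?_⟩
  exact e.permCongrHom.injective.comp (act_inj.comp e0_inj)

/-- (1) The equality of Q1 fails, in a strong form, for every group that contains the direct sum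
of countably many free groups of rank two. (2) There is a finitely generated group `W` such that
the equality fails for `W` and for `K × W` with every group `K` (which is finitely generated if
`K` is). (3) The equality fails for the group of all permutations of the natural numbers. -/
theorem result :
    (∀ (G : Type) [Group G], HasSum G → Fails G) ∧
    (∃ (W : Type) (_ : Group W), Group.FG W ∧ Fails W ∧
      ∀ (K : Type) [Group K], Fails (K × W) ∧ (Group.FG K → Group.FG (K × W))) ∧
    Fails (Equiv.Perm ℕ) := by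
  refine ⟨fun G _ h => fails_of_hasSum h, ?_, fails_of_hasSum hasSum_perm⟩
  obtain ⟨W, iW, hW, j, hj⟩ := exists_fg
  refine ⟨W, iW, hW, fails_of_hasSum ⟨j, hj⟩, fun K _ => ⟨?_, fun hK => ?_⟩⟩
  · refine fails_of_hasSum ⟨(MonoidHom.inr K W).comp j, ?_⟩
    intro x y h
    exact hj (congrArg Prod.snd h)
  · exact inferInstance

end Pool.Agent.Results.MP_849d05_an.DirectSumsOfFreeGroups
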